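import Pool.Agent.H13.EDM.Targets
import Pool.Agent.H19.TD.CLZ
import Pool.Agent.H4.TD.NRF
import Pool.Agent.H11.TD.LOW

/-!
# Row GEN: the general member of a linear system on a curve has the largest degree
-/

set_option autoImplicit false

open MvPolynomial
open Pool.Agent.H8.TD (lc dg Wsp)

namespace Pool.Agent.H13.EDM

section transfer

variable {k κ : Type} [Field k] [Field κ] [Algebra k κ]

/-- a nonzero polynomial over a larger field does not vanish outside a hypersurface over the
smaller field -/
theorem gen_transfer {n : ℕ} (ℓ : MvPolynomial (Fin n) κ) (hℓ : ℓ ≠ 0) :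
    ∃ Q : MvPolynomial (Fin n) k, Q ≠ 0 ∧ ∀ s : Fin n → k, eval s Q ≠ 0 →
      eval (fun i => algebraMap k κ (s i)) ℓ ≠ 0 := by
  classical
  obtain ⟨γ, hγ⟩ := ne_zero_iff.1 hℓ
  obtain ⟨lam, hlam⟩ : ∃ lam : κ →ₗ[k] k, lam (coeff γ ℓ) ≠ 0 := by
    by_contra hcon
    push Not at hcon
    exact hγ ((Module.forall_dual_apply_eq_zero_iff k (coeff γ ℓ)).1 hcon)
  refine ⟨∑ δ ∈ ℓ.support, monomial δ (lam (coeff δ ℓ)), ?_, ?_⟩
  · intro h
    have h1 := congrArg (coeff γ) h
    rw [coeff_sum, coeff_zero, Finset.sum_eq_single γ] at h1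
    · rw [coeff_monomial, if_pos rfl] at h1
      exact hlam h1
    · intro δ _ hδ
      rw [coeff_monomial, if_neg hδ]
    · intro hn
      exact absurd (mem_support_iff.2 hγ) hn
  · intro s hs h0
    apply hs
    have h1 : lam (eval (fun i => algebraMap k κ (s i)) ℓ) = 0 := by rw [h0, map_zero]
    rw [eval_eq, map_sum] at h1
    rw [map_sum, ← h1]
    refine Finset.sum_congr rfl fun δ _ => ?_
    rw [eval_monomial, Finsupp.prod_fintype _ _ (fun i => pow_zero _)]
    have h2 : coeff δ ℓ * ∏ i, (algebraMap k κ (s i)) ^ δ i =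
        (∏ i, s i ^ δ i) • coeff δ ℓ := by
      rw [Algebra.smul_def, map_prod, mul_comm]
      congr 1
      refine Finset.prod_congr rfl fun i _ => ?_
      rw [map_pow]
    have h3 : ∏ i ∈ δ.support, (algebraMap k κ (s i)) ^ δ i =
        ∏ i, (algebraMap k κ (s i)) ^ δ i := by
      refine Finset.prod_subset (Finset.subset_univ _) fun i _ hi => ?_
      rw [Finsupp.notMem_support_iff.1 hi, pow_zero]
    rw [h3, h2, map_smul, smul_eq_mul, mul_comm]

/-- for a general choice of the other variables a nonzero polynomial has finitely many zeros -/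
theorem gen_fibre {n : ℕ} (Q : MvPolynomial (Fin (n + 1)) k) (hQ : Q ≠ 0) :
    ∃ P : MvPolynomial (Fin n) k, P ≠ 0 ∧ ∀ s : Fin n → k, eval s P ≠ 0 →
      {c : k | eval (Fin.cons c s : Fin (n + 1) → k) Q = 0}.Finite := by
  classical
  have h0 : finSuccEquiv k n Q ≠ 0 := fun h =>
    hQ ((finSuccEquiv k n).injective (h.trans (map_zero _).symm))
  refine ⟨(finSuccEquiv k n Q).leadingCoeff, Polynomial.leadingCoeff_ne_zero.2 h0, ?_⟩
  intro s hs
  have h1 : Polynomial.map (eval s) (finSuccEquiv k n Q) ≠ 0 := by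
    intro h
    have h2 := congrArg (fun q => Polynomial.coeff q (finSuccEquiv k n Q).natDegree) h
    simp only [Polynomial.coeff_map, Polynomial.coeff_zero] at h2
    exact hs h2
  refine (Polynomial.map (eval s) (finSuccEquiv k n Q)).roots.toFinset.finite_toSet.subset ?_
  intro c hc
  rw [Finset.mem_coe, Multiset.mem_toFinset, Polynomial.mem_roots h1, Polynomial.IsRoot.def]
  rw [← eval_eq_eval_mv_eval']
  exact hc

end transfer

section det

variable {κ R : Type} [Field κ] [CommRing R] [IsDomain R] [Algebra κ R]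
  [Algebra (Polynomial κ) R] [IsScalarTower κ (Polynomial κ) R] [Module.Finite (Polynomial κ) R]

theorem gen_det (hinj : Function.Injective (algebraMap (Polynomial κ) R)) {n : ℕ}
    (χ : Fin n → R) (s₀ : Fin n → κ) (hs₀ : ∑ i, algebraMap κ R (s₀ i) * χ i = 1) :
    ∃ (D : ℕ) (ℓ : MvPolynomial (Fin n) κ), ℓ ≠ 0 ∧ ∀ s : Fin n → κ,
      (Algebra.norm (Polynomial κ) (∑ i, algebraMap κ R (s i) * χ i)).natDegree ≤ D ∧
      (eval s ℓ ≠ 0 →
        (Algebra.norm (Polynomial κ) (∑ i, algebraMap κ R (s i) * χ i)).natDegree = D) := by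
  classical
  have h1 : FaithfulSMul (Polynomial κ) R := (faithfulSMul_iff_algebraMap_injective _ _).mpr hinj
  have h2 : Module.IsTorsionFree (Polynomial κ) R := inferInstance
  have h3 : Module.Free (Polynomial κ) R := inferInstance
  let b := Module.Free.chooseBasis (Polynomial κ) R
  let ι := Module.Free.ChooseBasisIndex (Polynomial κ) R
  obtain ⟨N, hN⟩ : ∃ N : Matrix ι ι (Polynomial (MvPolynomial (Fin n) κ)),
    N = ∑ i, (Polynomial.C (X i : MvPolynomial (Fin n) κ)) •
      (Algebra.leftMulMatrix b (χ i)).map (Polynomial.mapRingHom (C : κ →+* MvPolynomial (Fin n) κ)) :=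
    ⟨_, rfl⟩
  have hev : ∀ s : Fin n → κ, Polynomial.map (eval s) N.det =
      Algebra.norm (Polynomial κ) (∑ i, algebraMap κ R (s i) * χ i) := by
    intro s
    rw [Algebra.norm_eq_matrix_det b]
    have h4 : Polynomial.map (eval s) N.det = (Polynomial.mapRingHom (eval s)) N.det := rfl
    rw [h4, RingHom.map_det]
    congr 1
    have h5 : ∑ i, algebraMap κ R (s i) * χ i = ∑ i, (Polynomial.C (s i)) • χ i := by
      refine Finset.sum_congr rfl fun i _ => ?_
      rw [Algebra.smul_def, IsScalarTower.algebraMap_apply κ (Polynomial κ) R]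
      rfl
    have h6 : (eval s).comp (C : κ →+* MvPolynomial (Fin n) κ) = RingHom.id κ := by
      ext x
      simp
    rw [h5, map_sum, hN]
    have h7 : ∀ i, Algebra.leftMulMatrix b ((Polynomial.C (s i)) • χ i) =
        (Polynomial.C (s i)) • Algebra.leftMulMatrix b (χ i) := fun i => map_smul _ _ _
    rw [Finset.sum_congr rfl fun i _ => h7 i, map_sum]
    refine Finset.sum_congr rfl fun i _ => ?_
    refine Matrix.ext fun p q => ?_
    have h8 : Polynomial.map (eval s) (Polynomial.C (X i : MvPolynomial (Fin n) κ) *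
        Polynomial.map (C : κ →+* MvPolynomial (Fin n) κ) (Algebra.leftMulMatrix b (χ i) p q)) =
        Polynomial.C (s i) * Algebra.leftMulMatrix b (χ i) p q := by
      rw [Polynomial.map_mul, Polynomial.map_C, eval_X, Polynomial.map_map, h6, Polynomial.map_id]
    exact h8
  have hdet : N.det ≠ 0 := by
    intro h
    have h4 := hev s₀
    rw [h, Polynomial.map_zero, hs₀, map_one] at h4
    exact zero_ne_one h4
  refine ⟨N.det.natDegree, N.det.leadingCoeff, Polynomial.leadingCoeff_ne_zero.2 hdet, ?_⟩
  intro s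
  rw [← hev s]
  refine ⟨Polynomial.natDegree_map_le, fun hs => ?_⟩
  exact Polynomial.natDegree_map_of_leadingCoeff_ne_zero _ hs

end det

section curve

variable {κ C : Type} [Field κ] [Field C] [Algebra κ C]

/-- the degree of an algebraic element -/
theorem dg_alg (htr : Algebra.trdeg κ C = (1 : ℕ)) {z : C} (hz : IsAlgebraic κ z) :
    dg κ {z} = 0 := by
  by_contra hne
  have h1 : FiniteDimensional (IntermediateField.adjoin κ {z}) C :=
    FiniteDimensional.of_finrank_pos (Nat.pos_of_ne_zero hne)
  have h2 : Algebra.IsAlgebraic (IntermediateField.adjoin κ {z}) C := inferInstance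
  have h3 : Algebra.IsAlgebraic κ (IntermediateField.adjoin κ {z}) :=
    IntermediateField.isAlgebraic_adjoin_simple hz.isIntegral
  have h4 : Algebra.IsAlgebraic κ C := Algebra.IsAlgebraic.trans κ
    (IntermediateField.adjoin κ {z}) C
  have h5 : Algebra.trdeg κ C = 0 := trdeg_eq_zero
  rw [h5] at htr
  norm_num at htr

/-- in transcendence degree one every transcendental element has finite degree -/
theorem fin_of_tr' (htr : Algebra.trdeg κ C ≤ 1)
    (S : Set C) (hS : S.Finite) (hgen : IntermediateField.adjoin κ S = ⊤)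
    (z : C) (hz : Transcendental κ z) : FiniteDimensional (IntermediateField.adjoin κ {z}) C := by
  have h5 : AlgebraicIndependent κ (fun _ : Unit => z) :=
    (algebraicIndependent_unique_type_iff).2 hz
  have h6 : IsTranscendenceBasis κ (fun _ : Unit => z) :=
    h5.isTranscendenceBasis_of_trdeg_le_of_finite (by simpa using htr)
  have h7 := h6.isAlgebraic_field
  have h8 : Set.range (fun _ : Unit => z) = {z} := by
    ext x; simp [eq_comm]
  rw [h8] at h7
  have h9 : IntermediateField.adjoin (IntermediateField.adjoin κ {z}) S = ⊤ := by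
    rw [eq_top_iff]
    intro x _
    have h10 : x ∈ IntermediateField.adjoin κ S := by rw [hgen]; trivial
    have h11 : IntermediateField.adjoin κ S ≤
        (IntermediateField.adjoin (IntermediateField.adjoin κ {z}) S).restrictScalars κ := by
      rw [IntermediateField.adjoin_le_iff]
      exact IntermediateField.subset_adjoin _ S
    exact h11 h10
  have h12 : FiniteDimensional (IntermediateField.adjoin κ {z})
      (IntermediateField.adjoin (IntermediateField.adjoin κ {z}) S) := by
    have : Finite S := hS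
    exact IntermediateField.finiteDimensional_adjoin fun x _ =>
      (Algebra.IsAlgebraic.isAlgebraic x).isIntegral
  rw [h9] at h12
  exact LinearEquiv.finiteDimensional
    (IntermediateField.topEquiv (F := IntermediateField.adjoin κ {z}) (E := C)).toLinearEquiv

end curve

theorem pf_GEN : T_GEN := by
  classical
  intro a k κ C _ _ _ _ _ _ _ _ _ φ htr hFG
  obtain ⟨S, hS⟩ := hFG
  -- a transcendental element
  obtain ⟨y, hy⟩ : ∃ y : C, Transcendental κ y := by
    by_contra hcon
    push Not at hcon
    have h4 : Algebra.IsAlgebraic κ C := ⟨fun x => by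
      by_contra hx
      exact hcon x hx⟩
    have h5 : Algebra.trdeg κ C = 0 := trdeg_eq_zero
    rw [h5] at htr
    norm_num at htr
  have htr1 : Algebra.trdeg κ C ≤ 1 := by rw [htr]; norm_num
  have hfin : ∀ z : C, Transcendental κ z → FiniteDimensional (IntermediateField.adjoin κ {z}) C :=
    fun z hz => fin_of_tr' htr1 (S : Set C) S.finite_toSet hS z hz
  -- the ring
  obtain ⟨R, hR⟩ : ∃ R : Subalgebra κ C, R = Algebra.adjoin κ (Set.range φ ∪ (S : Set C)) :=
    ⟨_, rfl⟩
  have hRfg : R.FG := by
    obtain ⟨t, ht⟩ := ((Set.finite_range φ).union S.finite_toSet).exists_finset_coe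
    exact ⟨t, by rw [ht, hR]⟩
  have hφR : ∀ i, φ i ∈ R := fun i => by
    rw [hR]; exact Algebra.subset_adjoin (Or.inl ⟨i, rfl⟩)
  have hRtop : IntermediateField.adjoin κ (R : Set C) = ⊤ := by
    rw [eq_top_iff, ← hS]
    refine IntermediateField.adjoin.mono κ _ _ ?_
    intro x hx
    rw [hR]
    exact Algebra.subset_adjoin (Or.inr hx)
  have hna : ∃ r : R, ¬ IsAlgebraic κ (r : C) := by
    by_contra hcon
    push Not at hcon
    have h1 : IntermediateField.adjoin κ (R : Set C) ≤ algebraicClosure κ C := by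
      rw [IntermediateField.adjoin_le_iff]
      intro x hx
      exact (mem_algebraicClosure_iff).2 (hcon ⟨x, hx⟩)
    rw [hRtop] at h1
    exact hy ((mem_algebraicClosure_iff).1 (h1 trivial))
  obtain ⟨h, hinj, hfi⟩ := Pool.Agent.H19.TD.noether1 ⟨y, hfin y hy⟩ R hRfg hna
  let _ : Algebra (Polynomial κ) R := h.toRingHom.toAlgebra
  have hst : IsScalarTower κ (Polynomial κ) R :=
    IsScalarTower.of_algebraMap_eq fun x => (h.commutes x).symm
  have hMF : Module.Finite (Polynomial κ) R := hfi
  have hi : Function.Injective (algebraMap (Polynomial κ) R) := hinj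
  -- the generic norm
  obtain ⟨χ, hχ⟩ : ∃ χ : Fin (a + 1) → R, χ = Fin.cons 1 (fun i => (⟨φ i, hφR i⟩ : R)) :=
    ⟨_, rfl⟩
  obtain ⟨D, ℓ, hℓ, hD⟩ := gen_det hi χ (Fin.cons 1 0) (by
    rw [Fin.sum_univ_succ, hχ]
    simp)
  obtain ⟨Q, hQ, hQℓ⟩ := gen_transfer (k := k) ℓ hℓ
  obtain ⟨P, hP, hPQ⟩ := gen_fibre Q hQ
  refine ⟨P, hP, ?_⟩
  -- linear combinations
  obtain ⟨z, hzdef⟩ : ∃ z : (Fin a → k) → R, z = fun s =>
    ∑ i, algebraMap κ R (algebraMap k κ (s i)) * (⟨φ i, hφR i⟩ : R) := ⟨_, rfl⟩
  have hz : ∀ s, ((z s : R) : C) = lc s φ := by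
    intro s
    rw [hzdef]
    change ((∑ i, algebraMap κ R (algebraMap k κ (s i)) * (⟨φ i, hφR i⟩ : R) : R) : C) = _
    rw [AddSubmonoidClass.coe_finsetSum]
    unfold lc
    refine Finset.sum_congr rfl fun i _ => ?_
    rw [← algebraMap_smul κ (s i) (φ i), Algebra.smul_def]
    rfl
  have hsum : ∀ (s : Fin a → k) (c : k), ∑ i, algebraMap κ R
      (algebraMap k κ ((Fin.cons (-c) s : Fin (a + 1) → k) i)) * χ i =
      z s - algebraMap κ R (algebraMap k κ c) := by
    intro s c
    rw [Fin.sum_univ_succ, hχ, hzdef]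
    simp only [Fin.cons_zero, Fin.cons_succ, map_neg, mul_one]
    ring
  have hdeg : ∀ (s : Fin a → k) (c : k), (Algebra.norm (Polynomial κ)
      (z s - algebraMap κ R (algebraMap k κ c))).natDegree ≤ D := by
    intro s c
    rw [← hsum s c]
    exact (hD _).1
  have hdeg' : ∀ (s : Fin a → k) (c : k), eval (Fin.cons (-c) s : Fin (a + 1) → k) Q ≠ 0 →
      (Algebra.norm (Polynomial κ)
      (z s - algebraMap κ R (algebraMap k κ c))).natDegree = D := by
    intro s c hc
    rw [← hsum s c]
    exact (hD _).2 (hQℓ _ hc)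
  -- the transcendental case
  have hinjk : Function.Injective (algebraMap k κ) := (algebraMap k κ).injective
  have htrans : ∀ s : Fin a → k, Transcendental κ (lc s φ) → {c : k | (Algebra.norm (Polynomial κ)
      (z s - algebraMap κ R (algebraMap k κ c))).natDegree ≠ dg κ {lc s φ}}.Finite := by
    intro s hs
    have hs' : Transcendental κ ((z s : R) : C) := by rw [hz]; exact hs
    have h1 := Pool.Agent.H11.TD.pf_LOW κ C R (z s) hRfg hRtop hs' (hfin _ hs')
    refine (h1.preimage (f := algebraMap k κ) hinjk.injOn).subset ?_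
    intro c hc
    rw [Set.mem_preimage, Set.mem_ofPred_eq, hz]
    have h2 : z s - algebraMap κ R (algebraMap k κ c) ≠ 0 := by
      intro h3
      apply hs'
      have h4 : (z s : R) = algebraMap κ R (algebraMap k κ c) := sub_eq_zero.1 h3
      rw [h4]
      exact isAlgebraic_algebraMap (algebraMap k κ c)
    rw [(Pool.Agent.H4.TD.pf_NRF κ R hi _ h2).2]
    exact hc
  intro s hs s'
  have hQfin : {c : k | eval (Fin.cons (-c) s : Fin (a + 1) → k) Q = 0}.Finite :=
    (hPQ s hs).preimage (f := fun c : k => -c) neg_injective.injOn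
  by_cases hs' : IsAlgebraic κ (lc s' φ)
  · rw [dg_alg htr hs']
    exact Nat.zero_le _
  · have h1 : dg κ {lc s' φ} ≤ D := by
      obtain ⟨c, hc⟩ := (htrans s' hs').infinite_compl.nonempty
      have h2 : (Algebra.norm (Polynomial κ)
        (z s' - algebraMap κ R (algebraMap k κ c))).natDegree = dg κ {lc s' φ} := by
        by_contra h3
        exact hc h3
      rw [← h2]
      exact hdeg s' c
    refine h1.trans ?_
    by_cases hsa : IsAlgebraic κ (lc s φ)
    · -- the norm of a unit
      have h2 : {c : k | algebraMap κ C (algebraMap k κ c) = lc s φ}.Finite := by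
        refine Set.Subsingleton.finite fun c hc c' hc' => ?_
        exact hinjk ((algebraMap κ C).injective (hc.trans hc'.symm))
      obtain ⟨c, hc⟩ := (hQfin.union h2).infinite_compl.nonempty
      rw [Set.mem_compl_iff, Set.mem_union, not_or] at hc
      have h3 := hdeg' s c hc.1
      have h4 : z s - algebraMap κ R (algebraMap k κ c) ≠ 0 := by
        intro h5
        apply hc.2
        have h6 : (z s : R) = algebraMap κ R (algebraMap k κ c) := sub_eq_zero.1 h5
        rw [Set.mem_ofPred_eq, ← hz, h6]
        rfl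
      have h5 : IsAlgebraic κ ((z s - algebraMap κ R (algebraMap k κ c) : R) : C) := by
        have h6 : ((z s - algebraMap κ R (algebraMap k κ c) : R) : C) =
            lc s φ - algebraMap κ C (algebraMap k κ c) := by
          rw [← hz]
          rfl
        rw [h6]
        exact hsa.sub (isAlgebraic_algebraMap _)
      have h6 : ((z s - algebraMap κ R (algebraMap k κ c) : R) : C)⁻¹ ∈ R :=
        Subalgebra.inv_mem_of_algebraic R h5
      have h7 : ((z s - algebraMap κ R (algebraMap k κ c) : R) : C) ≠ 0 := fun h =>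
        h4 (Subtype.ext h)
      have h8 : (z s - algebraMap κ R (algebraMap k κ c)) * ⟨_, h6⟩ = 1 :=
        Subtype.ext (mul_inv_cancel₀ h7)
      have h9 : IsUnit (Algebra.norm (Polynomial κ)
          (z s - algebraMap κ R (algebraMap k κ c))) :=
        (IsUnit.of_mul_eq_one _ h8).map (Algebra.norm (Polynomial κ))
      rw [Polynomial.natDegree_eq_zero_of_isUnit h9] at h3
      omega
    · obtain ⟨c, hc⟩ := (hQfin.union (htrans s hsa)).infinite_compl.nonempty
      rw [Set.mem_compl_iff, Set.mem_union, not_or] at hc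
      have h3 := hdeg' s c hc.1
      have h4 : (Algebra.norm (Polynomial κ)
        (z s - algebraMap κ R (algebraMap k κ c))).natDegree = dg κ {lc s φ} := by
        by_contra h5
        exact hc.2 h5
      rw [← h3, h4]

end Pool.Agent.H13.EDM
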