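import Pool.Agent.H13.EDM.TargetsB

/-!
# Rows NUF and NUB: the recursions at all large scales
-/

set_option autoImplicit false

open MvPolynomial
open Pool.Agent.H12.ZD (pmap)
open Pool.Agent.H18.HIT Pool.Agent.H18.HX Pool.Agent.H18.VZ
open Pool.Agent.H8.TD (lc dg Wsp)
open Pool.Agent.H2.ED
open Pool.Agent.H18.EDB (dgm Rcb)
open Pool.Agent.H8.EDA (Rcf)

namespace Pool.Agent.H13.EDM

theorem dgm_family {k K : Type} [Field k] [Field K] [Algebra k K] {ν : ℕ} (τ : K →ₐ[k] K)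
    (ξ : Fin (ν + 2) → K) (j m : ℕ) (s : Fin ν → Fin (ν + 2) → k) :
    dgm k (pn τ ξ m) ξ j s = dg k (Set.range fun i : Fin ν => lc (s i)
      (if (i : ℕ) < j then (fun l => τ^[m] (ξ l)) else ξ)) := rfl

/-- the intersection numbers of the iterates are bounded by their maximum, which is attained -/
theorem dgm_max (hMDM : T_MDM) {k K : Type} [Field k] [Infinite k] [Field K] [Algebra k K] {ν : ℕ}
    (P : Po (ν + 2) k) (τ : K →ₐ[k] K) (ξ : Fin (ν + 2) → K) (hG : Gp P ξ) (j m : ℕ) :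
    (∀ s, dgm k (pn τ ξ m) ξ j s ≤ dj k ν τ ξ j m) ∧
      ∃ s, dgm k (pn τ ξ m) ξ j s = dj k ν τ ξ j m := by
  have hfg : (⊤ : IntermediateField k K).FG := by
    classical
    exact ⟨Finset.univ.image ξ, by
      rw [Finset.coe_image, Finset.coe_univ, Set.image_univ]
      exact hG.top⟩
  have h1 := hMDM ν (ν + 2) k K
    (fun i : Fin ν => if (i : ℕ) < j then (fun l => τ^[m] (ξ l)) else ξ) hG.trd hfg
  exact ⟨fun s => h1.1 s, h1.2⟩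

theorem pf_NUF (hMDM : T_MDM) (hNM3 : T_NM3) (hPTF : T_PTF) : Pool.Agent.H8.EDA.T_NUF := by
  intro ν r d P F K _ _ ξ τ μ μ' C hν hP hF hS hFd hμ0 hμ hgrow hslow
  have hG := hFd.gp
  have hmx := fun j m => dgm_max hMDM P τ ξ hG j m
  have hC1 : (1 : ℝ) ≤ max C 1 := le_max_right _ _
  obtain ⟨c, hc1, hc2, hc⟩ := hNM3 ν (ν + 2) (max C 1) μ μ' Qb K τ ξ hG.trd hG.top hν hμ0 hμ
    (by
      intro m
      obtain ⟨s, hs⟩ := (hmx 3 m).2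
      rw [← hs]
      refine (hslow m s).trans ?_
      exact mul_le_mul_of_nonneg_right (le_max_left _ _) (pow_nonneg hμ0 m))
    (by
      intro M
      obtain ⟨n, hn, s, hs⟩ := hgrow M
      refine ⟨n, hn, hs.trans ?_⟩
      have h1 : (dgm Qb (pn τ ξ n) ξ 1 s : ℝ) ≤ (dj Qb ν τ ξ 1 n : ℝ) := by
        exact_mod_cast (hmx 1 n).1 s
      have h2 : (0 : ℝ) ≤ (dj Qb ν τ ξ 1 n : ℝ) := Nat.cast_nonneg _
      nlinarith)
  refine ⟨c, hc1, hc2, fun Λ => ?_⟩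
  have hΛ : (0 : ℝ) < ((ν + 2 : ℕ) : ℝ) * (ν.factorial * 2 ^ ν) := by positivity
  obtain ⟨m₀, hm₀⟩ := hc (((ν + 2 : ℕ) : ℝ) * (ν.factorial * 2 ^ ν)) Λ hΛ
  refine ⟨m₀, fun m hm => ?_⟩
  obtain ⟨h1, i, l₀, ρ, -, hi2, hl, hρ, hmain, h8, h2⟩ := hm₀ m hm
  refine ⟨?_, ?_⟩
  · obtain ⟨s, hs⟩ := (hmx 1 m).2
    exact ⟨s, by rw [hs]; exact h1⟩
  · obtain ⟨T, hT, hR⟩ := hPTF ν r d m i l₀ ρ P F K ξ τ (by omega) hP hF hS hFd (by omega) hl hρ.le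
      hmain
    exact ⟨ρ, l₀, T, Nat.cast_nonneg _, h2, h8, hT, hR⟩

theorem pf_NUB (hMDM : T_MDM) (hNM4 : T_NM4) (hPTB : T_PTB) : Pool.Agent.H18.EDB.T_NUB := by
  intro ν r d e P F K _ _ ξ τ μ μ' C hν hP hF hS hFd hfr heμ hμ0 hμ hgrow hslow
  have hG := hFd.gp
  have hmx := fun j m => dgm_max hMDM P τ ξ hG j m
  have hC1 : (1 : ℝ) ≤ max C 1 := le_max_right _ _
  obtain ⟨c, hc1, hc2, hc⟩ := hNM4 ν (ν + 2) e (max C 1) μ μ' Qb K τ ξ hG.trd hG.top hν hμ0 hμ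
    hfr heμ
    (by
      intro m
      obtain ⟨s, hs⟩ := (hmx (ν - 3) m).2
      rw [← hs]
      refine (hslow m s).trans ?_
      exact mul_le_mul_of_nonneg_right (le_max_left _ _) (pow_nonneg hμ0 m))
    (by
      intro M
      obtain ⟨n, hn, s, hs⟩ := hgrow M
      refine ⟨n, hn, hs.trans ?_⟩
      have h1 : (dgm Qb (pn τ ξ n) ξ (ν - 1) s : ℝ) ≤ (dj Qb ν τ ξ (ν - 1) n : ℝ) := by
        exact_mod_cast (hmx (ν - 1) n).1 s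
      have h2 : (0 : ℝ) ≤ (dj Qb ν τ ξ (ν - 1) n : ℝ) := Nat.cast_nonneg _
      nlinarith)
  refine ⟨c, hc1, hc2, fun Λ => ?_⟩
  have hΛ : (0 : ℝ) < ((ν + 2 : ℕ) : ℝ) * (ν.factorial * 2 ^ ν) := by positivity
  obtain ⟨m₀, hm₀⟩ := hc (((ν + 2 : ℕ) : ℝ) * (ν.factorial * 2 ^ ν)) Λ hΛ
  refine ⟨m₀, fun m hm => ?_⟩
  obtain ⟨h1, i, l₀, ρ, -, hi2, hl, hρ, hmain, h8, h2⟩ := hm₀ m hm
  refine ⟨?_, ?_⟩
  · obtain ⟨s, hs⟩ := (hmx (ν - 1) m).2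
    exact ⟨s, by rw [hs]; exact h1⟩
  · obtain ⟨T, hT, hR⟩ := hPTB ν r d m i l₀ ρ P F K ξ τ (by omega) hP hF hS hFd (by omega) hl hρ.le
      hmain
    exact ⟨ρ, l₀, T, Nat.cast_nonneg _, h2, h8, hT, hR⟩

end Pool.Agent.H13.EDM
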