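import Pool.Agent.H58.TX.WBY
import Pool.Agent.H77.TD.GNX
import Pool.Agent.H1.EDM.NM2

import Pool.Agent.H4.EDM.PTB
import Pool.Agent.H7.EDM.SPL
import Pool.Agent.H10.EDM.HIX
import Pool.Agent.H11.EDM.NM3
import Pool.Agent.H13.EDM.GEN
import Pool.Agent.H13.EDM.NUF
import Pool.Agent.H13.EDM.RGN
import Pool.Agent.H21.EDM.DLG
import Pool.Agent.H21.EDM.SEQ
import Pool.Agent.H21.EDM.ZCT
import Pool.Agent.H36.EDM.MUL
import Pool.Agent.H41.EDM.ADS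
import Pool.Agent.H48.EDM.HKN
import Pool.Agent.H51.EDM.GNM
import Pool.Agent.H51.EDM.GRW
import Pool.Agent.H60.EDM.KNC
import Pool.Agent.H60.EDM.NM4
import Pool.Agent.H60.EDM.NM8
import Pool.Agent.H61.EDM.MLT
import Pool.Agent.H67.EDM.BND
import Pool.Agent.H68.EDM.EXG
import Pool.Agent.H68.EDM.FGU
import Pool.Agent.H77.EDM.RCA
import Pool.Agent.H77.EDM.RCB
import Pool.Agent.H79.EDM.PBM
import Pool.Agent.H80.EDM.MDE
import Pool.Agent.H80.EDM.MDI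
import Pool.Agent.H80.EDM.STP
import Pool.Agent.H81.EDM.DI
import Pool.Agent.H81.EDM.SIU
import Pool.Agent.H81.EDM.UPB

import Pool.Agent.H91.EDM.MDM
import Pool.Agent.H91.EDM.NU1
import Pool.Agent.H91.EDM.NU2
import Pool.Agent.H94.EDM.IFD
import Pool.Agent.H94.EDM.TRD
import Pool.Agent.H97.EDM.CMN
import Pool.Agent.H97.EDM.LM0

/-!
# Mixed degrees of linear systems: the rows together
-/

set_option autoImplicit false

namespace Pool.Agent.H13.EDM.Al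

theorem ads : T_ADS := Pool.Agent.H41.EDM.pf_ADS
theorem trd : T_TRD := Pool.Agent.H94.EDM.pf_TRD
theorem ifd : T_IFD := Pool.Agent.H94.EDM.pf_IFD
theorem fgu : T_FGU := Pool.Agent.H68.EDM.pf_FGU
theorem exg : T_EXG := Pool.Agent.H68.EDM.pf_EXG ifd trd
theorem grw : T_GRW := Pool.Agent.H51.EDM.pf_GRW
theorem dlg : T_DLG := Pool.Agent.H21.EDM.DL.pf_DLG
theorem lm0 : T_LM0 := Pool.Agent.H97.EDM.pf_LM0
theorem lim : T_LIM := Pool.Agent.H91.EDM.pf_LIM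
theorem bnd : T_BND := Pool.Agent.H67.EDM.pf_BND grw dlg lm0
theorem mul : T_MUL := Pool.Agent.H36.EDM.pf_MUL ifd
theorem gen : T_GEN := pf_GEN
theorem zct : T_ZCT := Pool.Agent.H21.EDM.ZC.pf_ZCT ads trd ifd fgu
theorem upb : T_UPB := Pool.Agent.H81.EDM.pf_UPB ads trd ifd fgu exg bnd zct
theorem siu : T_SIU := Pool.Agent.H81.EDM.pf_SIU ads trd ifd fgu bnd dlg upb zct lim
theorem mdm : T_MDM := Pool.Agent.H91.EDM.pf_MDM bnd
theorem gnm : T_GNM := Pool.Agent.H51.EDM.pf_GNM ads trd ifd fgu gen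
theorem stp : T_STP := Pool.Agent.H80.EDM.pf_STP ads trd ifd fgu siu
theorem cmn : T_CMN := Pool.Agent.H97.EDM.pf_CMN mdm gnm
theorem di : T_DI := Pool.Agent.H81.EDM.pf_DI ifd exg bnd mdm gnm stp
theorem hix : T_HIX := Pool.Agent.H10.EDM.pf_HIX ads trd ifd fgu siu mdm cmn
theorem pbm : T_PBM := Pool.Agent.H79.EDM.pf_PBM ifd mdm
theorem seq : T_SEQ := Pool.Agent.H21.EDM.SQ.pf_SEQ exg mdm di hix pbm
theorem mlt : T_MLT := Pool.Agent.H61.EDM.pf_MLT ads trd ifd fgu mul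
theorem spl : T_SPL := Pool.Agent.H7.EDM.pf_SPL
theorem nm8 : T_NM8 := Pool.Agent.H60.EDM.pf_NM8
theorem knc : T_KNC := Pool.Agent.H60.EDM.pf_KNC Pool.Agent.H77.TD.pf_GNX
  Pool.Agent.H58.TX.pf_WBY
theorem hkn : T_HKN := Pool.Agent.H48.EDM.pf_HKN ads trd fgu exg dlg upb mlt spl nm8 knc
theorem mdi : T_MDI := Pool.Agent.H80.EDM.pf_MDI mdm
theorem mde : T_MDE := Pool.Agent.H80.EDM.pf_MDE mdm
theorem rca : T_RCA := Pool.Agent.H77.EDM.pf_RCA hkn mdi mde seq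
theorem rcb : T_RCB := Pool.Agent.H77.EDM.pf_RCB hkn mdi mde seq
theorem nu1 : T_NU1 := Pool.Agent.H91.EDM.pf_NU1
theorem nu2 : T_NU2 := Pool.Agent.H91.EDM.pf_NU2
theorem nu3 : T_NU3 := Pool.Agent.H91.EDM.pf_NU3
theorem nm2 : T_NM2 := Pool.Agent.H1.EDM.pf_NM2 nu1 nu2 nu3
theorem nm3 : T_NM3 := Pool.Agent.H11.EDM.pf_NM3 seq nm2
theorem nm4 : T_NM4 := Pool.Agent.H60.EDM.pf_NM4 seq nm2
theorem rgn : T_RGN := pf_RGN
theorem ptf : T_PTF := Pool.Agent.H4.EDM.pf_PTF rca rgn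
theorem ptb : T_PTB := Pool.Agent.H4.EDM.pf_PTB rcb rgn

/-- the forward recursion at all large scales -/
theorem nuf : Pool.Agent.H8.EDA.T_NUF := pf_NUF mdm nm3 ptf

/-- the backward recursion at all large scales -/
theorem nub : Pool.Agent.H18.EDB.T_NUB := pf_NUB mdm nm4 ptb

end Pool.Agent.H13.EDM.Al
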