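import Pool.Agent.H8.TX.Targets

/-!
# Mixed degrees of linear systems: definitions

A linear system is a finite family `Fin a → K` of elements of the function field `K`; its members
are the linear combinations `lc s φ` with coefficients in `k`.
-/

open Pool.Agent.H8.TD (lc dg Wsp)

namespace Pool.Agent.H13.EDM

/-- the intersection number of `n` linear systems -/
noncomputable def md (k : Type) {K : Type} [Field k] [Field K] [Algebra k K] {n a : ℕ}
    (φ : Fin n → Fin a → K) : ℕ :=
  sSup {Y | ∃ s : Fin n → Fin a → k, Y = dg k (Set.range fun i => lc (s i) (φ i))}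

/-- the `j`-th degree of the `m`-th iterate -/
noncomputable def dj (k : Type) {K : Type} [Field k] [Field K] [Algebra k K] {a : ℕ} (N : ℕ)
    (τ : K →ₐ[k] K) (ξ : Fin a → K) (j m : ℕ) : ℕ :=
  md k fun i : Fin N => if (i : ℕ) < j then (fun l => τ^[m] (ξ l)) else ξ

/-- the mixed degree of `j` systems of the iterate of order `2 m`, one of the iterate of order `m`
and the coordinates -/
noncomputable def wj (k : Type) {K : Type} [Field k] [Field K] [Algebra k K] {a : ℕ} (N : ℕ)
    (τ : K →ₐ[k] K) (ξ : Fin a → K) (j m : ℕ) : ℕ :=
  md k fun i : Fin N => if (i : ℕ) < j then (fun l => τ^[m + m] (ξ l)) else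
    if (i : ℕ) = j then (fun l => τ^[m] (ξ l)) else ξ

end Pool.Agent.H13.EDM
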