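import Pool.Agent.H13.EDM.Defs

/-!
# Mixed degrees of linear systems: targets

Block M of the ends theorem for Zariski dense orbits: Siu's inequality, the mixed degrees of the
iterates, the height inequality and the choice of the scale.
-/

open MvPolynomial
open Pool.Agent.H12.ZD (pmap)
open Pool.Agent.H18.HIT
open Pool.Agent.H8.ZA (HFam Const NA)
open Pool.Agent.H8.TD (lc dg Wsp)
open Pool.Agent.H8.TX (hn)

namespace Pool.Agent.H13.EDM

/-! ## A. Fields -/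

/-- degrees over a field generated in two steps -/
def T_ADS : Prop := ∀ (κ C : Type) [Field κ] [Field C] [Algebra κ C] (S T : Set C),
  dg (IntermediateField.adjoin κ S) T = dg κ (S ∪ T)

/-- the transcendence degree over a field generated by independent elements -/
def T_TRD : Prop := ∀ (p e : ℕ) (κ C : Type) [Field κ] [Field C] [Algebra κ C] (x : Fin p → C),
  AlgebraicIndependent κ x → Algebra.trdeg κ C = (p + e : ℕ) →
  Algebra.trdeg (IntermediateField.adjoin κ (Set.range x)) C = e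

/-- independence and degree -/
def T_IFD : Prop := ∀ (n : ℕ) (κ C : Type) [Field κ] [Field C] [Algebra κ C] (x : Fin n → C),
  Algebra.trdeg κ C = n → (⊤ : IntermediateField κ C).FG →
  (1 ≤ dg κ (Set.range x) ↔ AlgebraicIndependent κ x)

/-- finitely generated extensions over a larger field -/
def T_FGU : Prop := ∀ (κ C : Type) [Field κ] [Field C] [Algebra κ C] (S : Set C),
  (⊤ : IntermediateField κ C).FG → (⊤ : IntermediateField (IntermediateField.adjoin κ S) C).FG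

/-- independent elements are completed by members of linear systems -/
def T_EXG : Prop := ∀ (p e b : ℕ) (k κ C : Type) [Field k] [Field κ] [Field C] [Algebra k κ]
  [Algebra κ C] [Algebra k C] [IsScalarTower k κ C] (x : Fin p → C) (ψ : Fin e → Fin b → C),
  Algebra.trdeg κ C = (p + e : ℕ) → (⊤ : IntermediateField κ C).FG → AlgebraicIndependent κ x →
  (∀ i, Algebra.IsAlgebraic (IntermediateField.adjoin κ (Set.range (ψ i))) C) →
  ∃ t : Fin e → Fin b → k, 1 ≤ dg κ (Set.range x ∪ Set.range fun i => lc (t i) (ψ i))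

/-! ## B. Dimensions of spaces of sections -/

/-- the dimension grows at most like a polynomial -/
def T_GRW : Prop := ∀ (n q : ℕ) (κ C : Type) [Field κ] [Infinite κ] [Field C] [Algebra κ C]
  (f : Fin q → C), Algebra.trdeg κ C = n → ∃ R : ℕ, ∀ t : ℕ,
    Module.finrank κ (Wsp κ f (Fin.elim0 : Fin 0 → C) t 0) ≤ R * (t + 1) ^ n

/-- the dimension, lower bound -/
def T_DLG : Prop := ∀ (p q a b : ℕ) (k κ C : Type) [Field k] [Field κ] [Field C] [Algebra k κ]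
  [Algebra κ C] [Algebra k C] [IsScalarTower k κ C] (A : Fin a → C) (B : Fin b → C)
  (s : Fin p → Fin a → k) (t : Fin q → Fin b → k), Algebra.trdeg κ C = (p + q : ℕ) →
  IntermediateField.adjoin κ (Set.range A ∪ Set.range B) = ⊤ → ∃ n₀ : ℕ, ∀ n l : ℕ,
    dg κ (Set.range (fun i => lc (s i) A) ∪ Set.range fun i => lc (t i) B) *
      ((n + p).choose p * (l + q).choose q) ≤ Module.finrank κ (Wsp κ A B (n + n₀) (l + n₀))

/-- the intersection numbers are bounded -/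
def T_BND : Prop := ∀ (n a : ℕ) (k κ C : Type) [Field k] [Infinite k] [Field κ] [Field C]
  [Algebra k κ] [Algebra κ C] [Algebra k C] [IsScalarTower k κ C] (φ : Fin n → Fin a → C),
  Algebra.trdeg κ C = n → (⊤ : IntermediateField κ C).FG →
  ∃ Y : ℕ, ∀ s : Fin n → Fin a → k, dg κ (Set.range fun i => lc (s i) (φ i)) ≤ Y

/-- the degree of a section on a curve -/
def T_MUL : Prop := ∀ (a b M M' n l : ℕ) (k κ C : Type) [Field k] [Infinite k] [Field κ]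
  [CharZero κ] [Field C] [Algebra k κ] [Algebra κ C] [Algebra k C] [IsScalarTower k κ C]
  (φ : Fin a → C) (ψ : Fin b → C) (z : C), Algebra.trdeg κ C = (1 : ℕ) →
  (⊤ : IntermediateField κ C).FG → (∀ s : Fin a → k, dg κ {lc s φ} ≤ M) →
  (∀ s : Fin b → k, dg κ {lc s ψ} ≤ M') → z ∈ Wsp κ φ ψ n l → dg κ {z} ≤ n * M + l * M'

/-- the general member of a linear system on a curve has the largest degree -/
def T_GEN : Prop := ∀ (a : ℕ) (k κ C : Type) [Field k] [Infinite k] [Field κ] [CharZero κ]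
  [Field C] [Algebra k κ] [Algebra κ C] [Algebra k C] [IsScalarTower k κ C] (φ : Fin a → C),
  Algebra.trdeg κ C = (1 : ℕ) → (⊤ : IntermediateField κ C).FG →
  ∃ P : MvPolynomial (Fin a) k, P ≠ 0 ∧ ∀ s : Fin a → k, eval s P ≠ 0 →
    ∀ s' : Fin a → k, dg κ {lc s' φ} ≤ dg κ {lc s φ}

/-- the zeros of a section which is divisible by many functions `g - c` -/
def T_ZCT : Prop := ∀ (e a b n l J Y Y' : ℕ) (k κ C : Type) [Field k] [Infinite k] [Field κ]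
  [CharZero κ] [Field C] [Algebra k κ] [Algebra κ C] [Algebra k C] [IsScalarTower k κ C]
  (A : Fin a → C) (B : Fin b → C) (g : C) (ρ : Fin e → C), Algebra.trdeg κ C = (e + 1 : ℕ) →
  (⊤ : IntermediateField κ C).FG → Transcendental κ g →
  (∀ s : Fin a → k, dg κ (insert (lc s A) (Set.range ρ)) ≤ Y) →
  (∀ s : Fin b → k, dg κ (insert (lc s B) (Set.range ρ)) ≤ Y') →
  J * Module.finrank (IntermediateField.adjoin κ {g})
    (Wsp (IntermediateField.adjoin κ {g}) A B n l) < Module.finrank κ (Wsp κ A B n l) →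
  J * dg κ (insert g (Set.range ρ)) ≤ n * Y + l * Y'

/-- the dimension, upper bound -/
def T_UPB : Prop := ∀ (d a b n₀ Y : ℕ) (k κ C : Type) [Field k] [Infinite k] [Field κ]
  [CharZero κ] [Field C] [Algebra k κ] [Algebra κ C] [Algebra k C] [IsScalarTower k κ C]
  (A : Fin a → C) (B : Fin b → C), Algebra.trdeg κ C = d → (⊤ : IntermediateField κ C).FG →
  Algebra.IsAlgebraic (IntermediateField.adjoin κ (Set.range B)) C →
  (∀ s : Fin d → Fin b → k, dg κ (Set.range fun i => lc (s i) B) ≤ Y) →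
  ∃ c : ℕ, ∀ t : ℕ, Module.finrank κ (Wsp κ A B n₀ t) ≤ Y * (t + c) ^ d

/-! ## C. Siu's inequality and mixed degrees -/

/-- numbers: a limit -/
def T_LM0 : Prop := ∀ (n Q R c : ℕ), (∀ m : ℕ, Q * (m + n).choose n ≤ R * (m + c) ^ n) →
  Q ≤ n.factorial * R

/-- numbers: a limit -/
def T_LIM : Prop := ∀ (e P Q D Y c c' : ℕ), (∀ l J : ℕ, J * (P * (l + c) ^ e) <
  Q * (l + (e + 1)).choose (e + 1) → J * D ≤ c' + l * Y) → D * Q ≤ (e + 1).factorial * (P * Y)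

/-- Siu's inequality -/
def T_SIU : Prop := ∀ (e b P Q Y : ℕ) (k κ C : Type) [Field k] [Infinite k] [Field κ]
  [CharZero κ] [Field C] [Algebra k κ] [Algebra κ C] [Algebra k C] [IsScalarTower k κ C]
  (B : Fin b → C) (g : C) (ρ : Fin e → C), Algebra.trdeg κ C = (e + 1 : ℕ) →
  (⊤ : IntermediateField κ C).FG →
  (∃ t : Fin (e + 1) → Fin b → k, Q ≤ dg κ (Set.range fun i => lc (t i) B)) →
  (∀ t : Fin e → Fin b → k, dg κ (insert g (Set.range fun i => lc (t i) B)) ≤ P) →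
  (∀ s : Fin b → k, dg κ (insert (lc s B) (Set.range ρ)) ≤ Y) →
  dg κ (insert g (Set.range ρ)) * Q ≤ (e + 1).factorial * (P * Y)

/-- the intersection number is a maximum -/
def T_MDM : Prop := ∀ (n a : ℕ) (k K : Type) [Field k] [Infinite k] [Field K] [Algebra k K]
  (φ : Fin n → Fin a → K), Algebra.trdeg k K = n → (⊤ : IntermediateField k K).FG →
  (∀ s : Fin n → Fin a → k, dg k (Set.range fun i => lc (s i) (φ i)) ≤ md k φ) ∧
  ∃ s : Fin n → Fin a → k, dg k (Set.range fun i => lc (s i) (φ i)) = md k φ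

/-- one of the functions is replaced by a general member of a linear system -/
def T_GNM : Prop := ∀ (n a : ℕ) (k K : Type) [Field k] [CharZero k] [Field K] [Algebra k K]
  (φ : Fin a → K) (x : Fin n → K) (i : Fin n), Algebra.trdeg k K = n →
  (⊤ : IntermediateField k K).FG → ∃ P : MvPolynomial (Fin a) k, P ≠ 0 ∧
    ∀ s : Fin a → k, eval s P ≠ 0 → ∀ s' : Fin a → k,
      dg k (Set.range (Function.update x i (lc s' φ))) ≤
        dg k (Set.range (Function.update x i (lc s φ)))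

/-- the exchange of one function for a member of `B` -/
def T_STP : Prop := ∀ (n a j P Q : ℕ) (k K : Type) [Field k] [CharZero k] [Field K] [Algebra k K]
  (B : Fin a → K) (y : Fin n → K) (i : Fin n) (u : Fin a → k), Algebra.trdeg k K = n →
  (⊤ : IntermediateField k K).FG → (i : ℕ) < j → j ≤ n →
  (∀ u' : Fin a → k, dg k (Set.range (Function.update y i (lc u' B))) ≤
    dg k (Set.range (Function.update y i (lc u B)))) →
  (∃ t : Fin n → Fin a → k, Q ≤ dg k (Set.range fun l : Fin n =>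
    if (l : ℕ) < j then Function.update y i (lc u B) l else lc (t l) B)) →
  (∀ t : Fin n → Fin a → k, dg k (Set.range fun l : Fin n =>
    if (l : ℕ) < j then y l else lc (t l) B) ≤ P) →
  dg k (Set.range y) * Q ≤
    (n - j + 1).factorial * (P * dg k (Set.range (Function.update y i (lc u B))))

/-- common choice of the members of two families of systems which have the same members in `I` -/
def T_CMN : Prop := ∀ (n a : ℕ) (k K : Type) [Field k] [CharZero k] [Field K] [Algebra k K]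
  (φ ψ : Fin n → Fin a → K) (I : Finset (Fin n)), Algebra.trdeg k K = n →
  (⊤ : IntermediateField k K).FG → (∀ l ∈ I, φ l = ψ l) →
  ∃ s t : Fin n → Fin a → k, (∀ l ∈ I, s l = t l) ∧
    dg k (Set.range fun l => lc (s l) (φ l)) = md k φ ∧
    dg k (Set.range fun l => lc (t l) (ψ l)) = md k ψ

/-- the inequality for mixed degrees -/
def T_DI : Prop := ∀ (n a j : ℕ) (k K : Type) [Field k] [CharZero k] [Field K] [Algebra k K]
  (A B : Fin a → K) (S : Fin n → Fin a → K), Algebra.trdeg k K = n →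
  (⊤ : IntermediateField k K).FG → j ≤ n →
  md k (fun i : Fin n => if (i : ℕ) < j then A else S i) * md k (fun _ : Fin n => B) ≤
    n.factorial ^ n * (md k (fun i : Fin n => if (i : ℕ) < j then A else B) *
      md k (fun i : Fin n => if (i : ℕ) < j then B else S i))

/-- the Hodge index inequality -/
def T_HIX : Prop := ∀ (n a : ℕ) (k K : Type) [Field k] [CharZero k] [Field K] [Algebra k K]
  (A B : Fin a → K) (S : Fin n → Fin a → K) (p q : Fin n), Algebra.trdeg k K = n →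
  (⊤ : IntermediateField k K).FG → p ≠ q →
  md k (Function.update (Function.update S p A) q A) *
    md k (Function.update (Function.update S p B) q B) ≤
    2 * md k (Function.update (Function.update S p A) q B) ^ 2

/-- pullback of mixed degrees -/
def T_PBM : Prop := ∀ (n a m : ℕ) (k K : Type) [Field k] [CharZero k] [Field K] [Algebra k K]
  (τ : K →ₐ[k] K) (φ : Fin n → Fin a → K), Algebra.trdeg k K = n →
  (⊤ : IntermediateField k K).FG → 1 ≤ Module.finrank τ.fieldRange K ∧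
  md k (fun i l => τ^[m] (φ i l)) = Module.finrank τ.fieldRange K ^ m * md k φ

/-- the degrees of the iterates -/
def T_SEQ : Prop := ∀ (N a : ℕ) (k K : Type) [Field k] [CharZero k] [Field K] [Algebra k K]
  (τ : K →ₐ[k] K) (ξ : Fin a → K), Algebra.trdeg k K = N →
  IntermediateField.adjoin k (Set.range ξ) = ⊤ →
  1 ≤ Module.finrank τ.fieldRange K ∧
  (∀ m, dj k N τ ξ 0 m = dj k N τ ξ 0 0) ∧
  (∀ m, dj k N τ ξ N m = Module.finrank τ.fieldRange K ^ m * dj k N τ ξ 0 0) ∧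
  (∀ j m, 1 ≤ dj k N τ ξ j m) ∧
  (∀ j m, j + 2 ≤ N → dj k N τ ξ j m * dj k N τ ξ (j + 2) m ≤ 2 * dj k N τ ξ (j + 1) m ^ 2) ∧
  (∀ j m m', j ≤ N → dj k N τ ξ j (m + m') ≤
    N.factorial ^ N * (dj k N τ ξ j m * dj k N τ ξ j m')) ∧
  (∀ j m, j < N → wj k N τ ξ j m ≤
    N.factorial ^ N * (dj k N τ ξ j m * dj k N τ ξ (j + 1) m))

/-! ## D. The height inequality -/

/-- mixed degrees of a function and sections -/
def T_MLT : Prop := ∀ (e a b n l : ℕ) (W : ℕ → ℕ) (k κ C : Type) [Field k] [Infinite k] [Field κ]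
  [CharZero κ] [Field C] [Algebra k κ] [Algebra κ C] [Algebra k C] [IsScalarTower k κ C]
  (A : Fin a → C) (B : Fin b → C) (z : Fin e → C), Algebra.trdeg κ C = e →
  (⊤ : IntermediateField κ C).FG →
  (∀ j ≤ e, ∀ (s : Fin j → Fin a → k) (t : Fin (e - j) → Fin b → k),
    dg κ (Set.range (fun i => lc (s i) A) ∪ Set.range fun i => lc (t i) B) ≤ W j) →
  (∀ i, z i ∈ Wsp κ A B n l) →
  dg κ (Set.range z) ≤ ∑ j ∈ Finset.range (e + 1), e.choose j * n ^ j * l ^ (e - j) * W j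

/-- powers of the system of all products -/
def T_SPL : Prop := ∀ (a b n l : ℕ) (C : Type) [Field C] (A : Fin a → C) (B : Fin b → C),
  ∃ (c : ℕ) (M : Fin c → C), (∀ i, ∃ (α : Fin a → ℕ) (β : Fin b → ℕ), ∑ i, α i ≤ n ∧
    ∑ i, β i ≤ l ∧ M i = (∏ i, A i ^ α i) * ∏ i, B i ^ β i) ∧
  (1 ≤ n → Set.range A ⊆ Set.range M) ∧ (1 ≤ l → Set.range B ⊆ Set.range M) ∧
  ∀ (κ : Type) [Field κ] [Algebra κ C] (t : ℕ),
    Wsp κ A B (t * n) (t * l) ≤ Wsp κ (Fin.elim0 : Fin 0 → C) M 0 t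

/-- the choice of the parameters -/
def T_NM8 : Prop := ∀ (e i Q Y n₁ l₁ n₂ c : ℕ), i ≤ e + 1 → 1 ≤ Q → 1 ≤ Y → 1 ≤ n₁ → 1 ≤ l₁ →
  ∃ t n l J : ℕ, 1 ≤ t ∧ n + n₂ = t * n₁ ∧ l + n₂ = t * l₁ ∧
    J * (Y * (t + c) ^ e) < Q * ((n + i).choose i * (l + (e + 1 - i)).choose (e + 1 - i)) ∧
    t * (Q * n₁ ^ i * l₁ ^ (e + 1 - i)) ≤ 2 * (e + 1).factorial * Y * J

/-- heights and a section divisible by `X_j - g` -/
def T_KNC : Prop := ∀ (a b n l J : ℕ) (R : Type) [CommRing R] [Algebra Qb R] (A : Fin a → R)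
  (B : Fin b → R) (g : R) (S S' : MvPolynomial (Fin J) R), S' ≠ 0 →
  S = (∏ j, (X j - C g)) * S' → (∀ γ, coeff γ S ∈ Wsp Qb A B n l) →
  ∃ β : R, β ≠ 0 ∧ ∀ (K' : IntermediateField ℚ Qb) (F : HFam K'), ∃ c : ℝ,
    ∀ (m : ℕ) (ev : Fin m → (R →ₐ[Qb] Qb)), (∀ j, ev j β ≠ 0) → ∏ j, ev j β ∈ K' →
      (J : ℝ) * ∑ j, hn F ![ev j g] ≤ n * ∑ j, hn F (fun i => ev j (A i)) +
        l * ∑ j, hn F (fun i => ev j (B i)) + m * c

/-- the height inequality -/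
def T_HKN : Prop := ∀ (e a b i n₁ l₁ Q : ℕ) (W : ℕ → ℕ) (R K : Type) [CommRing R] [IsDomain R]
  [Field K] [Algebra Qb R] [Algebra R K] [Algebra Qb K] [IsScalarTower Qb R K] (A : Fin a → R)
  (B : Fin b → R) (g : R), Function.Injective (algebraMap R K) →
  Algebra.trdeg Qb K = (e + 1 : ℕ) →
  IntermediateField.adjoin Qb (Set.range (fun i => algebraMap R K (A i)) ∪
    Set.range (fun i => algebraMap R K (B i))) = ⊤ → i ≤ e + 1 → 1 ≤ n₁ → 1 ≤ l₁ →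
  (∃ (s : Fin i → Fin a → Qb) (t : Fin (e + 1 - i) → Fin b → Qb),
    Q ≤ dg Qb (Set.range (fun r => lc (s r) fun i => algebraMap R K (A i)) ∪
      Set.range fun r => lc (t r) fun i => algebraMap R K (B i))) →
  (∀ j ≤ e, ∀ (s : Fin j → Fin a → Qb) (t : Fin (e - j) → Fin b → Qb),
    dg Qb (insert (algebraMap R K g)
      (Set.range (fun r => lc (s r) fun i => algebraMap R K (A i)) ∪
        Set.range fun r => lc (t r) fun i => algebraMap R K (B i))) ≤ W j) →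
  ∃ β : R, β ≠ 0 ∧ ∀ (K' : IntermediateField ℚ Qb) (F : HFam K'), ∃ c : ℝ,
    ∀ (m : ℕ) (ev : Fin m → (R →ₐ[Qb] Qb)), (∀ j, ev j β ≠ 0) → ∏ j, ev j β ∈ K' →
      (Q * n₁ ^ i * l₁ ^ (e + 1 - i) : ℝ) * ∑ j, hn F ![ev j g] ≤
        ((e + 1).factorial * 2 ^ (e + 1) : ℝ) *
          (∑ j ∈ Finset.range (e + 1), (n₁ : ℝ) ^ j * l₁ ^ (e - j) * W j) *
          (n₁ * ∑ j, hn F (fun i => ev j (A i)) + l₁ * ∑ j, hn F (fun i => ev j (B i))) + m * c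

/-- mixed degrees with one function of a third system -/
def T_MDI : Prop := ∀ (e a j : ℕ) (k K : Type) [Field k] [Infinite k] [Field K] [Algebra k K]
  (A B G : Fin a → K) (u : Fin a → k) (s : Fin j → Fin a → k) (t : Fin (e - j) → Fin a → k),
  Algebra.trdeg k K = (e + 1 : ℕ) → (⊤ : IntermediateField k K).FG → j ≤ e →
  dg k (insert (lc u G) (Set.range (fun r => lc (s r) A) ∪ Set.range fun r => lc (t r) B)) ≤
    md k fun i : Fin (e + 1) => if (i : ℕ) < j then A else if (i : ℕ) = j then G else B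

/-- mixed degrees of two systems -/
def T_MDE : Prop := ∀ (N a i : ℕ) (k K : Type) [Field k] [Infinite k] [Field K] [Algebra k K]
  (A B : Fin a → K), Algebra.trdeg k K = N → (⊤ : IntermediateField k K).FG → i ≤ N →
  ∃ (s : Fin i → Fin a → k) (t : Fin (N - i) → Fin a → k),
    (md k fun l : Fin N => if (l : ℕ) < i then A else B) ≤
      dg k (Set.range (fun r => lc (s r) A) ∪ Set.range fun r => lc (t r) B)

/-- the recursion for forward orbits -/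
def T_RCA : Prop := ∀ (N a m i l₀ : ℕ) (ρ : ℝ) (R K : Type) [CommRing R] [IsDomain R]
  [Field K] [Algebra Qb R] [Algebra R K] [Algebra Qb K] [IsScalarTower Qb R K] (τ : K →ₐ[Qb] K)
  (ξ φ χ : Fin a → R), Function.Injective (algebraMap R K) → Algebra.trdeg Qb K = N → 1 ≤ N →
  IntermediateField.adjoin Qb (Set.range fun l => algebraMap R K (ξ l)) = ⊤ →
  (∀ l, algebraMap R K (φ l) = τ^[m] (algebraMap R K (ξ l))) →
  (∀ l, algebraMap R K (χ l) = τ^[m + m] (algebraMap R K (ξ l))) → i ≤ N → 1 ≤ l₀ → 0 ≤ ρ →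
  (a * (N.factorial * 2 ^ N) : ℝ) * (∑ j ∈ Finset.range N, (l₀ : ℝ) ^ (N - 1 - j) *
    wj Qb N τ (fun l => algebraMap R K (ξ l)) j m) * ρ ≤
    dj Qb N τ (fun l => algebraMap R K (ξ l)) i (m + m) * (l₀ : ℝ) ^ (N - i) →
  ∃ β : Fin a → R, (∀ l, β l ≠ 0) ∧ ∀ (K' : IntermediateField ℚ Qb) (F : HFam K'), ∃ c : ℝ,
    ∀ (n : ℕ) (ev : Fin n → (R →ₐ[Qb] Qb)), (∀ l j, ev j (β l) ≠ 0) →
      (∀ l, ∏ j, ev j (β l) ∈ K') →
      ρ * ∑ j, hn F (fun l => ev j (φ l)) ≤ ∑ j, hn F (fun l => ev j (χ l)) +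
        l₀ * ∑ j, hn F (fun l => ev j (ξ l)) + n * c

/-- the recursion for backward orbits -/
def T_RCB : Prop := ∀ (N a m i l₀ : ℕ) (ρ : ℝ) (R K : Type) [CommRing R] [IsDomain R]
  [Field K] [Algebra Qb R] [Algebra R K] [Algebra Qb K] [IsScalarTower Qb R K] (τ : K →ₐ[Qb] K)
  (ξ φ χ : Fin a → R), Function.Injective (algebraMap R K) → Algebra.trdeg Qb K = N → 1 ≤ N →
  IntermediateField.adjoin Qb (Set.range fun l => algebraMap R K (ξ l)) = ⊤ →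
  (∀ l, algebraMap R K (φ l) = τ^[m] (algebraMap R K (ξ l))) →
  (∀ l, algebraMap R K (χ l) = τ^[m + m] (algebraMap R K (ξ l))) → i ≤ N → 1 ≤ l₀ → 0 ≤ ρ →
  (a * (N.factorial * 2 ^ N) : ℝ) * (∑ j ∈ Finset.range N, (l₀ : ℝ) ^ (N - 1 - j) *
    wj Qb N τ (fun l => algebraMap R K (ξ l)) (N - 1 - j) m) * ρ ≤
    dj Qb N τ (fun l => algebraMap R K (ξ l)) (N - i) (m + m) * (l₀ : ℝ) ^ (N - i) →
  ∃ β : Fin a → R, (∀ l, β l ≠ 0) ∧ ∀ (K' : IntermediateField ℚ Qb) (F : HFam K'), ∃ c : ℝ,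
    ∀ (n : ℕ) (ev : Fin n → (R →ₐ[Qb] Qb)), (∀ l j, ev j (β l) ≠ 0) →
      (∀ l, ∏ j, ev j (β l) ∈ K') →
      ρ * ∑ j, hn F (fun l => ev j (φ l)) ≤ ∑ j, hn F (fun l => ev j (ξ l)) +
        l₀ * ∑ j, hn F (fun l => ev j (χ l)) + n * c

/-! ## E. Numbers -/

/-- submultiplicative sequences -/
def T_NU1 : Prop := ∀ (u : ℕ → ℝ) (C η : ℝ), 0 < C → 0 < η → (∀ m, 0 < u m) →
  (∀ m m', u (m + m') ≤ C * (u m * u m')) → (∀ m, η ^ m ≤ C * u m) →
  ∃ x : ℝ, 0 < x ∧ (∀ m, x ^ m ≤ C * u m) ∧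
    ∀ ε > 0, ∃ m₀ : ℕ, ∀ m ≥ m₀, u m ≤ (x * (1 + ε)) ^ m

/-- log-concave sequences: the first term is the largest -/
def T_NU2 : Prop := ∀ (N : ℕ) (C D : ℝ), 1 ≤ C → 0 < D → 3 ≤ N → ∃ K : ℝ, 0 < K ∧
  ∀ (x w : ℕ → ℝ) (l : ℝ), (∀ j ≤ N, 0 < x j) → x 0 = D →
    (∀ j, j + 2 ≤ N → x j * x (j + 2) ≤ C * x (j + 1) ^ 2) →
    (∀ j < N, w j ≤ C * (x j * x (j + 1))) → K * x 2 ≤ l → 1 ≤ l →
    ∑ j ∈ Finset.range N, l ^ (N - 1 - j) * w j ≤ K * (l ^ (N - 1) * x 1)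

/-- log-concave sequences: the second term is the largest -/
def T_NU3 : Prop := ∀ (N : ℕ) (C D : ℝ), 1 ≤ C → 0 < D → 3 ≤ N → ∃ K : ℝ, 0 < K ∧
  ∀ (x w : ℕ → ℝ), (∀ j ≤ N, 0 < x j) → x 0 = D →
    (∀ j, j + 2 ≤ N → x j * x (j + 2) ≤ C * x (j + 1) ^ 2) →
    (∀ j < N, w j ≤ C * (x j * x (j + 1))) → D ≤ x 2 → x 3 ≤ x 1 →
    ∑ j ∈ Finset.range N, w j ≤ K * (x 1 * x 2)

/-- the choice of the scale -/
def T_NUM : Prop := ∀ (N : ℕ) (δ w : ℕ → ℕ → ℝ) (C D η μ μ' : ℝ), 3 ≤ N → 1 ≤ C → 0 < D →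
  0 < η → (∀ j ≤ N, ∀ m, 0 < δ j m) → (∀ m, δ 0 m = D) →
  (∀ j m, j + 2 ≤ N → δ j m * δ (j + 2) m ≤ C * δ (j + 1) m ^ 2) →
  (∀ j ≤ N, ∀ m m', δ j (m + m') ≤ C * (δ j m * δ j m')) →
  (∀ j < N, ∀ m, w j m ≤ C * (δ j m * δ (j + 1) m)) → (∀ j ≤ N, ∀ m, η ^ m ≤ C * δ j m) →
  0 ≤ μ' → μ' < μ → 1 < μ → (∀ m, δ 3 m ≤ C * μ' ^ m) →
  (∀ M : ℕ, ∃ m ≥ M, μ ^ m ≤ C * δ 1 m) → ∀ c₀ Λ : ℝ, 0 < c₀ → 0 < Λ →
  ∃ μ₂ : ℝ, μ' < μ₂ ∧ 1 < μ₂ ∧ ∃ m₀ : ℕ, ∀ m ≥ m₀, ∃ (i l₀ : ℕ) (ρ : ℝ), 1 ≤ i ∧ i ≤ 2 ∧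
    1 ≤ l₀ ∧ 0 < ρ ∧
    Λ * (∑ j ∈ Finset.range N, (l₀ : ℝ) ^ (N - 1 - j) * w j m) * ρ ≤
      δ i (m + m) * (l₀ : ℝ) ^ (N - i) ∧
    8 * (l₀ : ℝ) ≤ ρ ^ 2 ∧ ρ ≤ c₀ * δ 1 m ∧ 2 * μ₂ ^ m ≤ ρ

/-- the choice of the scale for forward orbits -/
def T_NMA : Prop := ∀ (N a : ℕ) (C μ μ' : ℝ) (k K : Type) [Field k] [CharZero k] [Field K]
  [Algebra k K] (τ : K →ₐ[k] K) (ξ : Fin a → K), Algebra.trdeg k K = N →
  IntermediateField.adjoin k (Set.range ξ) = ⊤ → 3 ≤ N → 0 ≤ μ' → μ' < μ →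
  (∀ m, (dj k N τ ξ 3 m : ℝ) ≤ C * μ' ^ m) →
  (∀ M : ℕ, ∃ m ≥ M, μ ^ m ≤ C * dj k N τ ξ 1 m) → ∀ c₀ Λ : ℝ, 0 < c₀ → 0 < Λ →
  ∃ μ₂ : ℝ, μ' < μ₂ ∧ 1 < μ₂ ∧ ∃ m₀ : ℕ, ∀ m ≥ m₀, ∃ (i l₀ : ℕ) (ρ : ℝ), 1 ≤ i ∧ i ≤ 2 ∧
    1 ≤ l₀ ∧ 0 < ρ ∧
    Λ * (∑ j ∈ Finset.range N, (l₀ : ℝ) ^ (N - 1 - j) * wj k N τ ξ j m) * ρ ≤
      dj k N τ ξ i (m + m) * (l₀ : ℝ) ^ (N - i) ∧
    8 * (l₀ : ℝ) ≤ ρ ^ 2 ∧ ρ ≤ c₀ * dj k N τ ξ 1 m ∧ 2 * μ₂ ^ m ≤ ρ

/-- the choice of the scale for backward orbits -/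
def T_NMB : Prop := ∀ (N a : ℕ) (C μ μ' : ℝ) (k K : Type) [Field k] [CharZero k] [Field K]
  [Algebra k K] (τ : K →ₐ[k] K) (ξ : Fin a → K), Algebra.trdeg k K = N →
  IntermediateField.adjoin k (Set.range ξ) = ⊤ → 3 ≤ N → 0 ≤ μ' → μ' < μ →
  (Module.finrank τ.fieldRange K : ℝ) < μ →
  (∀ m, (dj k N τ ξ (N - 3) m : ℝ) ≤ C * μ' ^ m) →
  (∀ M : ℕ, ∃ m ≥ M, μ ^ m ≤ C * dj k N τ ξ (N - 1) m) → ∀ c₀ Λ : ℝ, 0 < c₀ → 0 < Λ →
  ∃ μ₂ : ℝ, μ' < μ₂ * Module.finrank τ.fieldRange K ∧ 1 < μ₂ ∧ ∃ m₀ : ℕ, ∀ m ≥ m₀,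
    ∃ (i l₀ : ℕ) (ρ : ℝ), 1 ≤ i ∧ i ≤ 2 ∧ 1 ≤ l₀ ∧ 0 < ρ ∧
    Λ * (∑ j ∈ Finset.range N, (l₀ : ℝ) ^ (N - 1 - j) * wj k N τ ξ (N - 1 - j) m) * ρ ≤
      dj k N τ ξ (N - i) (m + m) * (l₀ : ℝ) ^ (N - i) ∧
    8 * (l₀ : ℝ) ≤ ρ ^ 2 ∧
    ρ * (Module.finrank τ.fieldRange K : ℝ) ^ m ≤ c₀ * dj k N τ ξ (N - 1) m ∧
    2 * μ₂ ^ m ≤ ρ

end Pool.Agent.H13.EDM
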