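import Pool.Agent.H13.EDM.Targets
import Pool.Agent.H8.EDA.Targets

/-!
# Mixed degrees of linear systems: the recursions at all large scales, targets
-/

open MvPolynomial
open Pool.Agent.H12.ZD (pmap)
open Pool.Agent.H18.HIT Pool.Agent.H18.HX Pool.Agent.H18.VZ
open Pool.Agent.H8.ZA (HFam Const NA)
open Pool.Agent.H8.TD (lc dg Wsp)
open Pool.Agent.H8.TX (hn)
open Pool.Agent.H2.ED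
open Pool.Agent.H18.EDB (dgm Rcb)
open Pool.Agent.H8.EDA (Rcf)

namespace Pool.Agent.H13.EDM

/-- the choice of the scale, uniform in the constants -/
def T_NM2 : Prop := ∀ (N : ℕ) (δ w : ℕ → ℕ → ℝ) (C D η μ μ' s : ℝ), 3 ≤ N → 1 ≤ C → 0 < D →
  0 < η → (∀ j ≤ N, ∀ m, 0 < δ j m) → (∀ m, δ 0 m = D) →
  (∀ j m, j + 2 ≤ N → δ j m * δ (j + 2) m ≤ C * δ (j + 1) m ^ 2) →
  (∀ j ≤ N, ∀ m m', δ j (m + m') ≤ C * (δ j m * δ j m')) →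
  (∀ j < N, ∀ m, w j m ≤ C * (δ j m * δ (j + 1) m)) → (∀ j ≤ N, ∀ m, η ^ m ≤ C * δ j m) →
  0 ≤ μ' → μ' < μ → 1 ≤ s → s < μ → (∀ m, δ 3 m ≤ C * μ' ^ m) →
  (∀ M : ℕ, ∃ m ≥ M, μ ^ m ≤ C * δ 1 m) →
  ∃ c : ℝ, 1 < c ∧ μ' < c * s ∧ ∀ Λ L : ℝ, 0 < Λ → ∃ m₀ : ℕ, ∀ m ≥ m₀,
    L * (c * s) ^ m ≤ δ 1 m ∧ ∃ (i l₀ : ℕ) (ρ : ℝ), 1 ≤ i ∧ i ≤ 2 ∧ 1 ≤ l₀ ∧ 0 < ρ ∧
    Λ * (∑ j ∈ Finset.range N, (l₀ : ℝ) ^ (N - 1 - j) * w j m) * ρ ≤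
      δ i (m + m) * (l₀ : ℝ) ^ (N - i) ∧
    8 * (l₀ : ℝ) ≤ ρ * c ^ m ∧ 2 * c ^ m ≤ ρ

/-- the choice of the scale for forward orbits -/
def T_NM3 : Prop := ∀ (N a : ℕ) (C μ μ' : ℝ) (k K : Type) [Field k] [CharZero k] [Field K]
  [Algebra k K] (τ : K →ₐ[k] K) (ξ : Fin a → K), Algebra.trdeg k K = N →
  IntermediateField.adjoin k (Set.range ξ) = ⊤ → 3 ≤ N → 0 ≤ μ' → μ' < μ →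
  (∀ m, (dj k N τ ξ 3 m : ℝ) ≤ C * μ' ^ m) →
  (∀ M : ℕ, ∃ m ≥ M, μ ^ m ≤ C * dj k N τ ξ 1 m) →
  ∃ c : ℝ, 1 < c ∧ μ' < c ∧ ∀ Λ L : ℝ, 0 < Λ → ∃ m₀ : ℕ, ∀ m ≥ m₀,
    L * c ^ m ≤ dj k N τ ξ 1 m ∧ ∃ (i l₀ : ℕ) (ρ : ℝ), 1 ≤ i ∧ i ≤ 2 ∧ 1 ≤ l₀ ∧ 0 < ρ ∧
    Λ * (∑ j ∈ Finset.range N, (l₀ : ℝ) ^ (N - 1 - j) * wj k N τ ξ j m) * ρ ≤
      dj k N τ ξ i (m + m) * (l₀ : ℝ) ^ (N - i) ∧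
    8 * (l₀ : ℝ) ≤ ρ * c ^ m ∧ 2 * c ^ m ≤ ρ

/-- the choice of the scale for backward orbits -/
def T_NM4 : Prop := ∀ (N a e : ℕ) (C μ μ' : ℝ) (k K : Type) [Field k] [CharZero k] [Field K]
  [Algebra k K] (τ : K →ₐ[k] K) (ξ : Fin a → K), Algebra.trdeg k K = N →
  IntermediateField.adjoin k (Set.range ξ) = ⊤ → 3 ≤ N → 0 ≤ μ' → μ' < μ →
  Module.finrank τ.fieldRange K ≤ e → (e : ℝ) < μ →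
  (∀ m, (dj k N τ ξ (N - 3) m : ℝ) ≤ C * μ' ^ m) →
  (∀ M : ℕ, ∃ m ≥ M, μ ^ m ≤ C * dj k N τ ξ (N - 1) m) →
  ∃ c : ℝ, 1 < c ∧ μ' < c * e ∧ ∀ Λ L : ℝ, 0 < Λ → ∃ m₀ : ℕ, ∀ m ≥ m₀,
    L * (c * e) ^ m ≤ dj k N τ ξ (N - 1) m ∧ ∃ (i l₀ : ℕ) (ρ : ℝ), 1 ≤ i ∧ i ≤ 2 ∧ 1 ≤ l₀ ∧
    0 < ρ ∧
    Λ * (∑ j ∈ Finset.range N, (l₀ : ℝ) ^ (N - 1 - j) * wj k N τ ξ (N - 1 - j) m) * ρ ≤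
      dj k N τ ξ (N - i) (m + m) * (l₀ : ℝ) ^ (N - i) ∧
    8 * (l₀ : ℝ) ≤ ρ * c ^ m ∧ 2 * c ^ m ≤ ρ

/-- a ring of regular functions and its evaluations -/
def T_RGN : Prop := ∀ (ν : ℕ) (k K : Type) [Field k] [Field K] [Algebra k K] (P q : Po (ν + 2) k)
  (ξ : Fin (ν + 2) → K), Gp P ξ → aeval ξ q ≠ 0 → ∃ R : Subalgebra k K,
    (∀ p : Po (ν + 2) k, aeval ξ p ∈ R) ∧ (aeval ξ q)⁻¹ ∈ R ∧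
    (∀ z : Fin (ν + 2) → k, eval z P = 0 → z 1 = 1 → eval z q ≠ 0 → ∃ ev : R →ₐ[k] k,
      ∀ (p : Po (ν + 2) k) (h : aeval ξ p ∈ R), ev ⟨aeval ξ p, h⟩ = eval z p) ∧
    ∀ b : R, ∃ (p : Po (ν + 2) k) (n : ℕ), (b : K) * aeval ξ q ^ n = aeval ξ p

/-- the forward recursion for families of points -/
def T_PTF : Prop := ∀ (ν r d m i l₀ : ℕ) (ρ : ℝ) (P : Po (ν + 2) Qb) (F : Tup (ν + 2) Qb)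
  (K : Type) [Field K] [Algebra Qb K] (ξ : Fin (ν + 2) → K) (τ : K →ₐ[Qb] K), 1 ≤ ν → Hyp P r →
  (∀ i, (F i).IsHomogeneous d) → Slf (Ideal.span {P}) F → Fd P F ξ τ → i ≤ ν → 1 ≤ l₀ → 0 ≤ ρ →
  (((ν + 2 : ℕ) : ℝ) * (ν.factorial * 2 ^ ν)) * (∑ j ∈ Finset.range ν, (l₀ : ℝ) ^ (ν - 1 - j) *
    wj Qb ν τ ξ j m) * ρ ≤ dj Qb ν τ ξ i (m + m) * (l₀ : ℝ) ^ (ν - i) →
  ∃ T : Finset (Po (ν + 2) Qb), (∀ p ∈ T, aeval ξ p ≠ 0) ∧ Rcf P F m ρ l₀ T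

/-- the backward recursion for families of points -/
def T_PTB : Prop := ∀ (ν r d m i l₀ : ℕ) (ρ : ℝ) (P : Po (ν + 2) Qb) (F : Tup (ν + 2) Qb)
  (K : Type) [Field K] [Algebra Qb K] (ξ : Fin (ν + 2) → K) (τ : K →ₐ[Qb] K), 1 ≤ ν → Hyp P r →
  (∀ i, (F i).IsHomogeneous d) → Slf (Ideal.span {P}) F → Fd P F ξ τ → i ≤ ν → 1 ≤ l₀ → 0 ≤ ρ →
  (((ν + 2 : ℕ) : ℝ) * (ν.factorial * 2 ^ ν)) * (∑ j ∈ Finset.range ν, (l₀ : ℝ) ^ (ν - 1 - j) *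
    wj Qb ν τ ξ (ν - 1 - j) m) * ρ ≤ dj Qb ν τ ξ (ν - i) (m + m) * (l₀ : ℝ) ^ (ν - i) →
  ∃ T : Finset (Po (ν + 2) Qb), (∀ p ∈ T, aeval ξ p ≠ 0) ∧ Rcb P F m ρ l₀ T

end Pool.Agent.H13.EDM
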